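import Pool.Agent.Helper65.CG.Defs2

/-! # Project UB, module C4: covers of the link graphs -/

set_option autoImplicit false

namespace Pool.Agent.Helper65.CG

open scoped Classical
open Pool.Agent.Helper65.CliqueGame

variable {n q m : ℕ}

namespace H79

theorem lk_comm (ℓ : Sym2 (Fin n) → ℕ) (Z : Fin q → Fin n) (i j : Fin q) :
    lk ℓ Z i j = lk ℓ Z j i := by
  simp only [lk, Sym2.eq_swap]

theorem lk_self {ℓ : Sym2 (Fin n) → ℕ} (hℓ : Lab m ℓ) (Z : Fin q → Fin n) (i : Fin q) :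
    lk ℓ Z i i = 0 := hℓ.diag _ (by simp)

end H79

theorem cover {ℓ : Sym2 (Fin n) → ℕ} (hℓ : Lab m ℓ) {Z : Fin q → Fin n} {F : Finset (Fin q)}
    {μ : ℕ} {i : Fin q} (hi : i ∈ F) (hi' : i ∉ Mt ℓ Z F μ) :
    ∃ W : Finset (Fin q), W.card ≤ 2 * μ ∧ i ∉ W ∧ ∀ p ∈ lg ℓ Z F i, p.1 ∈ W ∨ p.2 ∈ W := by
  have hno : ∀ M ⊆ lg ℓ Z F i, IsM M → M.card < μ := by
    intro M hM hMM
    by_contra hc
    push Not at hc
    obtain ⟨M', hM', hc'⟩ := Finset.exists_subset_card_eq hc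
    apply hi'
    rw [Mt, Finset.mem_filter]
    refine ⟨hi, M', hM'.trans hM, ?_, hc'⟩
    intro p hp
    exact ⟨(hMM p (hM' hp)).1, fun p' hp' => (hMM p (hM' hp)).2 p' (hM' hp')⟩
  obtain ⟨M, hM, hmax⟩ := Finset.exists_max_image
    ((lg ℓ Z F i).powerset.filter (fun M => IsM M)) Finset.card
    ⟨∅, Finset.mem_filter.mpr ⟨Finset.empty_mem_powerset _, fun p hp => absurd hp (by simp)⟩⟩
  have hM1 : M ⊆ lg ℓ Z F i := Finset.mem_powerset.mp (Finset.mem_filter.mp hM).1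
  have hM2 : IsM M := (Finset.mem_filter.mp hM).2
  refine ⟨M.image Prod.fst ∪ M.image Prod.snd, ?_, ?_, ?_⟩
  · have h1 := Finset.card_union_le (M.image Prod.fst) (M.image Prod.snd)
    have h2 : (M.image Prod.fst).card ≤ M.card := Finset.card_image_le
    have h3 : (M.image Prod.snd).card ≤ M.card := Finset.card_image_le
    have h4 := hno M hM1 hM2
    omega
  · intro h
    rcases Finset.mem_union.mp h with h | h
    · obtain ⟨p, hp, hpi⟩ := Finset.mem_image.mp h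
      exact (Finset.mem_filter.mp (hM1 hp)).2.1 hpi
    · obtain ⟨p, hp, hpi⟩ := Finset.mem_image.mp h
      exact (Finset.mem_filter.mp (hM1 hp)).2.2.1 hpi
  · intro p hp
    by_contra hc
    push Not at hc
    obtain ⟨hc1, hc2⟩ := hc
    have a1 : ∀ p' ∈ M, p.1 ≠ p'.1 := by
      intro p' hp' h
      exact hc1 (Finset.mem_union_left _ (h ▸ Finset.mem_image_of_mem Prod.fst hp'))
    have a2 : ∀ p' ∈ M, p.1 ≠ p'.2 := by
      intro p' hp' h
      exact hc1 (Finset.mem_union_right _ (h ▸ Finset.mem_image_of_mem Prod.snd hp'))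
    have a3 : ∀ p' ∈ M, p.2 ≠ p'.1 := by
      intro p' hp' h
      exact hc2 (Finset.mem_union_left _ (h ▸ Finset.mem_image_of_mem Prod.fst hp'))
    have a4 : ∀ p' ∈ M, p.2 ≠ p'.2 := by
      intro p' hp' h
      exact hc2 (Finset.mem_union_right _ (h ▸ Finset.mem_image_of_mem Prod.snd hp'))
    have hpM : p ∉ M := fun h => a1 p h rfl
    have hne : p.1 ≠ p.2 := by
      intro h
      have := (Finset.mem_filter.mp hp).2.2.2.1
      rw [h, H79.lk_self hℓ] at this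
      omega
    have hins : IsM (insert p M) := by
      intro x hx
      rcases Finset.mem_insert.mp hx with rfl | hxM
      · refine ⟨hne, fun y hy hxy => ?_⟩
        rcases Finset.mem_insert.mp hy with rfl | hy
        · exact absurd rfl hxy
        · exact ⟨a1 y hy, a2 y hy, a3 y hy, a4 y hy⟩
      · refine ⟨(hM2 x hxM).1, fun y hy hxy => ?_⟩
        rcases Finset.mem_insert.mp hy with rfl | hy
        · exact ⟨(a1 x hxM).symm, (a3 x hxM).symm, (a2 x hxM).symm, (a4 x hxM).symm⟩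
        · exact (hM2 x hxM).2 y hy hxy
    have h5 := hmax (insert p M) (Finset.mem_filter.mpr
      ⟨Finset.mem_powerset.mpr (Finset.insert_subset hp hM1), hins⟩)
    rw [Finset.card_insert_of_notMem hpM] at h5
    omega

theorem strong_deg {ℓ : Sym2 (Fin n) → ℕ} (hℓ : Lab m ℓ) {Z : Fin q → Fin n}
    {F : Finset (Fin q)} {μ K : ℕ} (hK : 2 * μ < K) {i : Fin q} (hi : i ∈ F)
    (hi' : i ∉ Mt ℓ Z F μ) : (F.filter (fun k => Str ℓ Z F K i k)).card ≤ 2 * μ := by
  obtain ⟨W, hW, hiW, hcov⟩ := cover hℓ hi hi'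
  refine (Finset.card_le_card ?_).trans hW
  intro k hk
  obtain ⟨hkF, hik, hKR⟩ := Finset.mem_filter.mp hk
  by_contra hkW
  have hex : ∀ a ∈ RN ℓ Z F i k, ∃ h ∈ W, lk ℓ Z k h = a := by
    intro a ha
    obtain ⟨_, h2, ⟨h, hh, hhi, hhk, hha⟩, ⟨h', hh', hhi', hhk', hha'⟩⟩ := Finset.mem_filter.mp ha
    refine ⟨h', ?_, hha'⟩
    have hmem : (k, h') ∈ lg ℓ Z F i := by
      rw [lg, Finset.mem_filter]
      refine ⟨Finset.mk_mem_product hkF hh', hik.symm, hhi', ?_, h, hh, hhi, ?_⟩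
      · simp only [hha']
        exact h2
      · simp only [hha', hha]
    rcases hcov _ hmem with h3 | h3
    · exact absurd h3 hkW
    · exact h3
  have hle : (RN ℓ Z F i k).card ≤ W.card := by
    have : RN ℓ Z F i k ⊆ W.image (fun h => lk ℓ Z k h) := by
      intro a ha
      obtain ⟨h, hh, hha⟩ := hex a ha
      exact Finset.mem_image.mpr ⟨h, hh, hha⟩
    exact (Finset.card_le_card this).trans Finset.card_image_le
  omega

theorem bad_at {ℓ : Sym2 (Fin n) → ℕ} (hℓ : Lab m ℓ) {Z : Fin q → Fin n}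
    {F : Finset (Fin q)} {μ K : ℕ} (hK : 1 ≤ K) {i : Fin q} (hi : i ∈ F)
    (hi' : i ∉ Mt ℓ Z F μ) :
    ((Finset.range (n ^ 2 + 2)).filter (fun a => 2 ≤ a ∧ (∃ h ∈ F, lk ℓ Z i h = a) ∧
      ∃ j ∈ F, ∃ h ∈ F, j ≠ i ∧ h ≠ i ∧ lk ℓ Z j h = a ∧ ¬ Str ℓ Z F K i j ∧
        ¬ Str ℓ Z F K i h)).card ≤ 2 * μ * K := by
  obtain ⟨W, hW, hiW, hcov⟩ := cover hℓ hi hi'
  let W' := W.filter (fun w => ¬ Str ℓ Z F K i w)
  have hsub : ((Finset.range (n ^ 2 + 2)).filter (fun a => 2 ≤ a ∧ (∃ h ∈ F, lk ℓ Z i h = a) ∧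
      ∃ j ∈ F, ∃ h ∈ F, j ≠ i ∧ h ≠ i ∧ lk ℓ Z j h = a ∧ ¬ Str ℓ Z F K i j ∧
        ¬ Str ℓ Z F K i h)) ⊆ W'.biUnion (fun w => insert (lk ℓ Z i w) (RN ℓ Z F i w)) := by
    intro a ha
    obtain ⟨har, h2, ⟨h0, hh0, hh0a⟩, j, hj, h, hh, hji, hhi, hja, hs1, hs2⟩ :=
      Finset.mem_filter.mp ha
    have hh0i : h0 ≠ i := by
      rintro rfl
      rw [H79.lk_self hℓ] at hh0a
      omega
    have hjh : j ≠ h := by
      rintro rfl
      rw [H79.lk_self hℓ] at hja
      omega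
    have hmem : (j, h) ∈ lg ℓ Z F i := by
      rw [lg, Finset.mem_filter]
      refine ⟨Finset.mk_mem_product hj hh, hji, hhi, ?_, h0, hh0, hh0i, ?_⟩
      · simp only [hja]
        exact h2
      · simp only [hja, hh0a]
    have key : ∀ w w', w ∈ W → w ∈ F → w' ∈ F → w' ≠ i → w' ≠ w → lk ℓ Z w w' = a →
        ¬ Str ℓ Z F K i w → a ∈ W'.biUnion (fun w => insert (lk ℓ Z i w) (RN ℓ Z F i w)) := by
      intro w w' hwW hwF hw'F hw'i hw'w hlk hstr
      refine Finset.mem_biUnion.mpr ⟨w, Finset.mem_filter.mpr ⟨hwW, hstr⟩, ?_⟩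
      by_cases h0w : h0 = w
      · rw [← h0w, hh0a]
        exact Finset.mem_insert_self _ _
      · apply Finset.mem_insert_of_mem
        rw [RN, Finset.mem_filter]
        exact ⟨har, h2, ⟨h0, hh0, hh0i, h0w, hh0a⟩, w', hw'F, hw'i, hw'w, hlk⟩
    rcases hcov _ hmem with h3 | h3
    · exact key j h h3 hj hh hhi hjh.symm hja hs1
    · exact key h j h3 hh hj hji hjh (by rw [H79.lk_comm]; exact hja) hs2
  refine (Finset.card_le_card hsub).trans ?_
  refine (Finset.card_biUnion_le_card_mul W' _ K ?_).trans ?_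
  · intro w hw
    obtain ⟨hwW, hstr⟩ := Finset.mem_filter.mp hw
    have hwi : i ≠ w := by
      rintro rfl
      exact hiW hwW
    have h4 : (RN ℓ Z F i w).card < K := by
      by_contra hc
      push Not at hc
      exact hstr ⟨hwi, hc⟩
    have h5 := Finset.card_insert_le (lk ℓ Z i w) (RN ℓ Z F i w)
    omega
  · have h6 : W'.card ≤ W.card := Finset.card_le_card (Finset.filter_subset _ _)
    exact Nat.mul_le_mul_right K (h6.trans hW)

end Pool.Agent.Helper65.CG
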