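import Pool.Agent.Helper65.CG.Defs2

/-! # Project UB, module S2: samples with few collisions -/

set_option autoImplicit false

namespace Pool.Agent.Helper65.CG

open scoped Classical
open Pool.Agent.Helper65.CliqueGame

variable {n q m : ℕ}

namespace H79

/-- the labels of Maker -/
noncomputable def AL (n : ℕ) : Finset ℕ := (Finset.range (n ^ 2 + 2)).filter (fun a => 2 ≤ a)

/-- the Maker labels hit by `U` -/
noncomputable def Hit (ℓ : Sym2 (Fin n) → ℕ) (U : Finset (Sym2 (Fin n))) : Finset ℕ :=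
  (U.image ℓ).filter (fun a => 2 ≤ a)

theorem hit_sub {ℓ : Sym2 (Fin n) → ℕ} (hℓ : Lab m ℓ) (U : Finset (Sym2 (Fin n))) :
    Hit ℓ U ⊆ AL n := by
  intro a ha
  obtain ⟨ha1, ha2⟩ := Finset.mem_filter.mp ha
  obtain ⟨e, _, rfl⟩ := Finset.mem_image.mp ha1
  have := hℓ.bd e
  exact Finset.mem_filter.mpr ⟨Finset.mem_range.mpr (by omega), ha2⟩

theorem cnt_pos {ℓ : Sym2 (Fin n) → ℕ} {U : Finset (Sym2 (Fin n))} {a : ℕ} (ha : 2 ≤ a) :
    a ∈ Hit ℓ U ↔ 0 < cnt ℓ U a := by
  rw [Hit, Finset.mem_filter, cnt, Finset.card_pos, Finset.mem_image]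
  constructor
  · rintro ⟨⟨e, he, hea⟩, _⟩
    exact ⟨e, Finset.mem_filter.mpr ⟨he, hea⟩⟩
  · rintro ⟨e, he⟩
    obtain ⟨h1, h2⟩ := Finset.mem_filter.mp he
    exact ⟨⟨e, h1, h2⟩, ha⟩

theorem ga_AL {ℓ : Sym2 (Fin n) → ℕ} (hℓ : Lab m ℓ) (U : Finset (Sym2 (Fin n))) :
    ga ℓ U = ∑ a ∈ AL n, Real.logb 2 (1 + (cnt ℓ U a : ℝ)) := by
  rw [ga]
  apply Finset.sum_subset (hit_sub hℓ U)
  intro a ha hna
  have h2 : 2 ≤ a := (Finset.mem_filter.mp ha).2
  have h3 : cnt ℓ U a = 0 := by
    by_contra hc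
    exact hna ((cnt_pos h2).mpr (Nat.pos_of_ne_zero hc))
  rw [h3]
  simp

theorem cnt_mono {ℓ : Sym2 (Fin n) → ℕ} {U U' : Finset (Sym2 (Fin n))} (h : U ⊆ U') (a : ℕ) :
    cnt ℓ U a ≤ cnt ℓ U' a :=
  Finset.card_le_card (Finset.filter_subset_filter _ h)

theorem cnt_le {ℓ : Sym2 (Fin n) → ℕ} (hℓ : Lab m ℓ) (U : Finset (Sym2 (Fin n))) {a : ℕ}
    (ha : 2 ≤ a) : cnt ℓ U a ≤ m :=
  (Finset.card_le_card (Finset.filter_subset_filter _ (Finset.subset_univ _))).trans
    (hℓ.size a ha)

/-- pairs of samples with a common label -/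
noncomputable def Xc {α : Type} {r : ℕ} (H : α → Finset ℕ) (τ : Fin r → α) : ℝ :=
  ∑ k, ∑ k', if k = k' then 0 else ((H (τ k) ∩ H (τ k')).card : ℝ)

/-- resampling one coordinate -/
theorem resample {α : Type} {r : ℕ} (Sh : Finset α) (F : (Fin r → α) → ℝ) (k : Fin r) :
    ∑ τ ∈ Fintype.piFinset (fun _ : Fin r => Sh), ∑ z ∈ Sh, F (Function.update τ k z) =
      Sh.card * ∑ τ ∈ Fintype.piFinset (fun _ : Fin r => Sh), F τ := by
  have h1 : (Sh.card : ℝ) * ∑ τ ∈ Fintype.piFinset (fun _ : Fin r => Sh), F τ =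
      ∑ τ ∈ Fintype.piFinset (fun _ : Fin r => Sh), ∑ _z ∈ Sh, F τ := by
    rw [Finset.mul_sum]
    apply Finset.sum_congr rfl
    intro τ _
    rw [Finset.sum_const, nsmul_eq_mul]
  rw [h1, ← Finset.sum_product', ← Finset.sum_product']
  apply Finset.sum_nbij' (fun x => (Function.update x.1 k x.2, x.1 k))
    (fun x => (Function.update x.1 k x.2, x.1 k))
  · intro x hx
    obtain ⟨h2, h3⟩ := Finset.mem_product.mp hx
    rw [Fintype.mem_piFinset] at h2
    refine Finset.mem_product.mpr ⟨?_, h2 k⟩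
    rw [Fintype.mem_piFinset]
    intro j
    by_cases hj : j = k
    · subst hj
      simpa using h3
    · simpa [Function.update_of_ne hj] using h2 j
  · intro x hx
    obtain ⟨h2, h3⟩ := Finset.mem_product.mp hx
    rw [Fintype.mem_piFinset] at h2
    refine Finset.mem_product.mpr ⟨?_, h2 k⟩
    rw [Fintype.mem_piFinset]
    intro j
    by_cases hj : j = k
    · subst hj
      simpa using h3
    · simpa [Function.update_of_ne hj] using h2 j
  · intro x _
    simp
  · intro x _
    simp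
  · intro x _
    rfl

theorem sum_Xc {α : Type} {r : ℕ} (Sh : Finset α) (hne : Sh.Nonempty) (H : α → Finset ℕ)
    {p Q : ℝ} (hp : 0 ≤ p)
    (hpop : ∀ z ∈ Sh, ∀ a ∈ H z, ((Sh.filter (fun z' => a ∈ H z')).card : ℝ) ≤ p * Sh.card)
    (hQ : ∀ z ∈ Sh, ((H z).card : ℝ) ≤ Q) :
    ∑ τ ∈ Fintype.piFinset (fun _ : Fin r => Sh), Xc H τ ≤
      (Fintype.piFinset (fun _ : Fin r => Sh)).card * ((r : ℝ) ^ 2 * p * Q) := by
  have hN : (0 : ℝ) < Sh.card := by exact_mod_cast hne.card_pos
  have hQ0 : 0 ≤ Q := by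
    obtain ⟨z, hz⟩ := hne
    exact (Nat.cast_nonneg _).trans (hQ z hz)
  have key : ∀ k k' : Fin r, ∑ τ ∈ Fintype.piFinset (fun _ : Fin r => Sh),
      (if k = k' then 0 else ((H (τ k) ∩ H (τ k')).card : ℝ)) ≤
      (Fintype.piFinset (fun _ : Fin r => Sh)).card * (p * Q) := by
    intro k k'
    by_cases hk : k = k'
    · simp only [hk, if_true, Finset.sum_const_zero]
      positivity
    · simp only [if_neg hk]
      have h1 := resample Sh (fun τ : Fin r → α => ((H (τ k) ∩ H (τ k')).card : ℝ)) k'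
      have h2 : ∀ τ ∈ Fintype.piFinset (fun _ : Fin r => Sh), ∑ z ∈ Sh,
          ((H (Function.update τ k' z k) ∩ H (Function.update τ k' z k')).card : ℝ) ≤
          Sh.card * (p * Q) := by
        intro τ hτ
        rw [Fintype.mem_piFinset] at hτ
        have h3 : ∀ z, ((H (Function.update τ k' z k) ∩ H (Function.update τ k' z k')).card : ℝ) =
            ∑ a ∈ H (τ k), if a ∈ H z then (1 : ℝ) else 0 := by
          intro z
          rw [Function.update_of_ne hk, Function.update_self, Finset.sum_boole,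
            Finset.filter_mem_eq_inter]
        simp_rw [h3]
        rw [Finset.sum_comm]
        calc ∑ a ∈ H (τ k), ∑ z ∈ Sh, (if a ∈ H z then (1 : ℝ) else 0)
            ≤ ∑ _a ∈ H (τ k), p * Sh.card := by
              apply Finset.sum_le_sum
              intro a ha
              rw [Finset.sum_boole]
              exact hpop (τ k) (hτ k) a ha
          _ = (H (τ k)).card * (p * Sh.card) := by rw [Finset.sum_const, nsmul_eq_mul]
          _ ≤ Q * (p * Sh.card) := by
              apply mul_le_mul_of_nonneg_right (hQ _ (hτ k))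
              positivity
          _ = Sh.card * (p * Q) := by ring
      have h4 := Finset.sum_le_sum h2
      rw [h1, Finset.sum_const, nsmul_eq_mul] at h4
      have h5 : (Sh.card : ℝ) * ∑ τ ∈ Fintype.piFinset (fun _ : Fin r => Sh),
          ((H (τ k) ∩ H (τ k')).card : ℝ) ≤
          Sh.card * ((Fintype.piFinset (fun _ : Fin r => Sh)).card * (p * Q)) := by
        calc _ ≤ _ := h4
          _ = _ := by ring
      exact le_of_mul_le_mul_left h5 hN
  simp only [Xc]
  rw [Finset.sum_comm]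
  simp_rw [Finset.sum_comm (s := Fintype.piFinset (fun _ : Fin r => Sh))]
  calc ∑ k : Fin r, ∑ k' : Fin r, ∑ τ ∈ Fintype.piFinset (fun _ : Fin r => Sh),
        (if k = k' then 0 else ((H (τ k) ∩ H (τ k')).card : ℝ))
      ≤ ∑ _k : Fin r, ∑ _k' : Fin r,
        ((Fintype.piFinset (fun _ : Fin r => Sh)).card * (p * Q) : ℝ) := by
        apply Finset.sum_le_sum
        intro k _
        apply Finset.sum_le_sum
        intro k' _
        exact key k k'
    _ = (Fintype.piFinset (fun _ : Fin r => Sh)).card * ((r : ℝ) ^ 2 * p * Q) := by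
        simp only [Finset.sum_const, Finset.card_univ, Fintype.card_fin, nsmul_eq_mul]
        ring

/-- one label -/
theorem one_label {r m : ℕ} (c : Fin r → ℕ) (C : ℕ) (hcm : ∀ k, c k ≤ m) (hcC : ∀ k, c k ≤ C) :
    ∑ k, Real.logb 2 (1 + (c k : ℝ)) ≤ Real.logb 2 (1 + (C : ℝ)) +
      Real.logb 2 ((m : ℝ) + 1) * ∑ k, ∑ k', (if k = k' then 0 else
        (if 0 < c k then (1 : ℝ) else 0) * (if 0 < c k' then 1 else 0)) := by
  have hlog : ∀ x : ℕ, 0 ≤ Real.logb 2 (1 + (x : ℝ)) := by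
    intro x
    apply Real.logb_nonneg (by norm_num)
    have : (0 : ℝ) ≤ x := Nat.cast_nonneg x
    linarith
  have hlm : 0 ≤ Real.logb 2 ((m : ℝ) + 1) := by
    have := hlog m
    rwa [add_comm] at this
  have hin : ∀ k k' : Fin r, (0 : ℝ) ≤ (if k = k' then 0 else
      (if 0 < c k then (1 : ℝ) else 0) * (if 0 < c k' then 1 else 0)) := by
    intro k k'
    split_ifs <;> norm_num
  by_cases h : ∃ k k', k ≠ k' ∧ 0 < c k ∧ 0 < c k'
  · obtain ⟨k1, k2, h12, hc1, hc2⟩ := h
    have h1 : ∀ k, Real.logb 2 (1 + (c k : ℝ)) ≤ Real.logb 2 ((m : ℝ) + 1) *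
        ∑ k', (if k = k' then 0 else
        (if 0 < c k then (1 : ℝ) else 0) * (if 0 < c k' then 1 else 0)) := by
      intro k
      by_cases hk : 0 < c k
      · have h3 : (1 : ℝ) ≤ ∑ k', (if k = k' then 0 else
            (if 0 < c k then (1 : ℝ) else 0) * (if 0 < c k' then 1 else 0)) := by
          have : ∃ k', k ≠ k' ∧ 0 < c k' := by
            by_cases hk1 : k = k1
            · exact ⟨k2, by rw [hk1]; exact h12, hc2⟩
            · exact ⟨k1, hk1, hc1⟩
          obtain ⟨k', hkk', hck'⟩ := this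
          refine le_trans ?_ (Finset.single_le_sum (fun k' _ => hin k k') (Finset.mem_univ k'))
          rw [if_neg hkk', if_pos hk, if_pos hck']
          norm_num
        have h4 : Real.logb 2 (1 + (c k : ℝ)) ≤ Real.logb 2 ((m : ℝ) + 1) := by
          apply Real.logb_le_logb_of_le (by norm_num)
          · have : (0 : ℝ) ≤ c k := Nat.cast_nonneg _
            linarith
          · have : (c k : ℝ) ≤ m := by exact_mod_cast hcm k
            linarith
        nlinarith
      · have h5 : c k = 0 := by omega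
        rw [h5]
        simp only [Nat.cast_zero, add_zero, Real.logb_one]
        apply mul_nonneg hlm
        apply Finset.sum_nonneg
        intro k' _
        split_ifs <;> norm_num
    have h2 := Finset.sum_le_sum (fun k (_ : k ∈ (Finset.univ : Finset (Fin r))) => h1 k)
    rw [← Finset.mul_sum] at h2
    have := hlog C
    linarith
  · push Not at h
    have h6 : 0 ≤ Real.logb 2 ((m : ℝ) + 1) * ∑ k, ∑ k', (if k = k' then 0 else
        (if 0 < c k then (1 : ℝ) else 0) * (if 0 < c k' then 1 else 0)) := by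
      apply mul_nonneg hlm
      apply Finset.sum_nonneg
      intro k _
      apply Finset.sum_nonneg
      intro k' _
      exact hin k k'
    have h7 : ∑ k, Real.logb 2 (1 + (c k : ℝ)) ≤ Real.logb 2 (1 + (C : ℝ)) := by
      by_cases h8 : ∃ k, 0 < c k
      · obtain ⟨k, hk⟩ := h8
        rw [Finset.sum_eq_single k]
        · apply Real.logb_le_logb_of_le (by norm_num)
          · have : (0 : ℝ) ≤ c k := Nat.cast_nonneg _
            linarith
          · have : (c k : ℝ) ≤ C := by exact_mod_cast hcC k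
            linarith
        · intro k' _ hk'
          have h9 : c k' = 0 := by
            have := h k k' hk'.symm hk
            omega
          rw [h9]
          simp
        · intro hk'
          exact absurd (Finset.mem_univ k) hk'
      · push Not at h8
        rw [Finset.sum_eq_zero]
        · exact hlog C
        · intro k _
          have h9 : c k = 0 := by
            have := h8 k
            omega
          rw [h9]
          simp
    linarith

theorem ga_Ut {ℓ : Sym2 (Fin n) → ℕ} (hℓ : Lab m ℓ) {r : ℕ} (τ : Fin r → Conf q n × Prs q) :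
    ∑ k, ga ℓ (UU (τ k).1 (τ k).2) ≤ ga ℓ (Ut τ) + Real.logb 2 ((m : ℝ) + 1) *
      Xc (fun z : Conf q n × Prs q => Hit ℓ (UU z.1 z.2)) τ := by
  have hX : Xc (fun z : Conf q n × Prs q => Hit ℓ (UU z.1 z.2)) τ =
      ∑ a ∈ AL n, ∑ k, ∑ k', (if k = k' then 0 else
        (if 0 < cnt ℓ (UU (τ k).1 (τ k).2) a then (1 : ℝ) else 0) *
          (if 0 < cnt ℓ (UU (τ k').1 (τ k').2) a then 1 else 0)) := by
    rw [Xc]
    symm
    rw [Finset.sum_comm]
    apply Finset.sum_congr rfl
    intro k _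
    rw [Finset.sum_comm]
    apply Finset.sum_congr rfl
    intro k' _
    symm
    by_cases hk : k = k'
    · simp [hk]
    · simp only [if_neg hk]
      have h1 : Hit ℓ (UU (τ k).1 (τ k).2) ∩ Hit ℓ (UU (τ k').1 (τ k').2) =
          (AL n).filter (fun a => 0 < cnt ℓ (UU (τ k).1 (τ k).2) a ∧
            0 < cnt ℓ (UU (τ k').1 (τ k').2) a) := by
        ext a
        rw [Finset.mem_inter, Finset.mem_filter]
        constructor
        · rintro ⟨h1, h2⟩
          have h3 : 2 ≤ a := (Finset.mem_filter.mp h1).2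
          exact ⟨hit_sub hℓ _ h1, (cnt_pos h3).mp h1, (cnt_pos h3).mp h2⟩
        · rintro ⟨h0, h1, h2⟩
          have h3 : 2 ≤ a := (Finset.mem_filter.mp h0).2
          exact ⟨(cnt_pos h3).mpr h1, (cnt_pos h3).mpr h2⟩
      rw [h1, Finset.card_filter]
      push_cast
      apply Finset.sum_congr rfl
      intro a _
      by_cases h2 : 0 < cnt ℓ (UU (τ k).1 (τ k).2) a
      · by_cases h3 : 0 < cnt ℓ (UU (τ k').1 (τ k').2) a
        · simp [h2, h3]
        · simp [h3]
      · simp [h2]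
  rw [hX, ga_AL hℓ (Ut τ), Finset.mul_sum, ← Finset.sum_add_distrib]
  simp_rw [ga_AL hℓ (UU _ _)]
  rw [Finset.sum_comm]
  apply Finset.sum_le_sum
  intro a ha
  have h2 : 2 ≤ a := (Finset.mem_filter.mp ha).2
  apply one_label
  · intro k
    exact cnt_le hℓ _ h2
  · intro k
    apply cnt_mono
    rw [Ut]
    exact Finset.subset_biUnion_of_mem (fun k => UU (τ k).1 (τ k).2) (Finset.mem_univ k)

end H79

theorem stepcount (hm : 1 ≤ m) {ℓ : Sym2 (Fin n) → ℕ} (hℓ : Lab m ℓ) {d J : ℕ} {c : ℝ}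
    (hB : Bet2 ℓ q d J c) {s r x y : ℕ} (hs1 : 1 ≤ s) (hs : s ≤ n ^ 4) (hr1 : 1 ≤ r)
    (hr : r ≤ n ^ 4) {V : Fin q → Finset (Finset (Fin n))} {lev : List (Lev q n)}
    (hC : Cpx V lev x d J s) (Y : Prs q) (Sh : Finset (Conf q n × Prs q)) (hne : Sh.Nonempty)
    (hmem : ∀ z ∈ Sh, z.1 ∈ Fam ℓ V lev x ∧ z.2 ∈ Ych Y y)
    (halive : ∀ z ∈ Sh, Alive ℓ (UU z.1 z.2)) {g : ℝ} (hg : ∀ z ∈ Sh, g ≤ ga ℓ (UU z.1 z.2))
    {p Q : ℝ} (hp : 0 ≤ p)
    (hpop : ∀ a, 2 ≤ a → ((Sh.filter (fun z => ∃ e ∈ UU z.1 z.2, ℓ e = a)).card : ℝ) ≤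
      p * Sh.card)
    (hQ : ∀ z ∈ Sh, (((UU z.1 z.2).image ℓ).filter (fun a => 2 ≤ a)).card ≤ Q) :
    lb Sh.card + g ≤ lb (Fam ℓ V lev x).card + lb (Ych Y y).card +
      2 * Real.logb 2 ((m : ℝ) + 1) * r * p * Q + (c * s + 1) / r := by
  set P : Finset (Fin r → Conf q n × Prs q) := Fintype.piFinset (fun _ : Fin r => Sh) with hP
  set H : Conf q n × Prs q → Finset ℕ := fun z => H79.Hit ℓ (UU z.1 z.2) with hH
  have hN : (0 : ℝ) < Sh.card := by exact_mod_cast hne.card_pos
  have hQ0 : 0 ≤ Q := by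
    obtain ⟨z, hz⟩ := hne
    exact (Nat.cast_nonneg _).trans (hQ z hz)
  have hsum : ∑ τ ∈ P, H79.Xc H τ ≤ P.card * ((r : ℝ) ^ 2 * p * Q) := by
    apply H79.sum_Xc Sh hne H hp
    · intro z _ a ha
      have h2 : 2 ≤ a := (Finset.mem_filter.mp ha).2
      refine le_trans (le_of_eq ?_) (hpop a h2)
      congr 2
      ext z'
      simp only [hH, H79.Hit, Finset.mem_filter, Finset.mem_image, h2, and_true]
    · exact hQ
  set b : ℝ := (r : ℝ) ^ 2 * p * Q with hb
  have hb0 : 0 ≤ b := by positivity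
  have hX0 : ∀ τ : Fin r → Conf q n × Prs q, 0 ≤ H79.Xc H τ := by
    intro τ
    apply Finset.sum_nonneg
    intro k _
    apply Finset.sum_nonneg
    intro k' _
    split_ifs
    · exact le_refl _
    · exact Nat.cast_nonneg _
  set T : Finset (Fin r → Conf q n × Prs q) := P.filter (fun τ => H79.Xc H τ ≤ 2 * b) with hT
  have hPc : P.card = Sh.card ^ r := by
    rw [hP, Fintype.card_piFinset_const]
  have hTc : (P.card : ℝ) ≤ 2 * T.card := by
    by_contra hc
    push Not at hc
    have h1 : ((P.filter (fun τ => ¬ H79.Xc H τ ≤ 2 * b)).card : ℝ) + T.card = P.card := by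
      have := Finset.card_filter_add_card_filter_not (s := P) (fun τ => H79.Xc H τ ≤ 2 * b)
      rw [hT, add_comm]
      exact_mod_cast this
    set Bd := P.filter (fun τ => ¬ H79.Xc H τ ≤ 2 * b) with hBd
    have h2 : (0 : ℝ) < Bd.card := by
      have : (0 : ℝ) ≤ T.card := Nat.cast_nonneg _
      linarith
    have h3 : Bd.Nonempty := by
      rw [← Finset.card_pos]
      exact_mod_cast h2
    have h4 : ∑ _τ ∈ Bd, (2 * b) < ∑ τ ∈ Bd, H79.Xc H τ := by
      apply Finset.sum_lt_sum_of_nonempty h3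
      intro τ hτ
      exact not_le.mp (Finset.mem_filter.mp hτ).2
    have h5 : ∑ τ ∈ Bd, H79.Xc H τ ≤ ∑ τ ∈ P, H79.Xc H τ :=
      Finset.sum_le_sum_of_subset_of_nonneg (Finset.filter_subset _ _) (fun τ _ _ => hX0 τ)
    rw [Finset.sum_const, nsmul_eq_mul] at h4
    have h6 : (P.card : ℝ) ≤ 2 * Bd.card := by linarith
    nlinarith
  have hP0 : (0 : ℝ) < P.card := by
    rw [hPc]
    push_cast
    positivity
  have hTne : T.Nonempty := by
    rw [← Finset.card_pos]
    have : (0 : ℝ) < T.card := by linarith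
    exact_mod_cast this
  have hlm : 0 ≤ Real.logb 2 ((m : ℝ) + 1) := by
    apply Real.logb_nonneg (by norm_num)
    have : (0 : ℝ) ≤ m := Nat.cast_nonneg m
    linarith
  have hbet := hB s r hs1 hs hr1 hr V lev x hC Y y T
    (r * g - Real.logb 2 ((m : ℝ) + 1) * (2 * b)) hTne (by
      intro τ hτ
      obtain ⟨hτP, hτX⟩ := Finset.mem_filter.mp hτ
      rw [hP, Fintype.mem_piFinset] at hτP
      refine ⟨fun k => hmem _ (hτP k), ?_, ?_⟩
      · intro e he
        rw [Ut] at he
        obtain ⟨k, _, hk⟩ := Finset.mem_biUnion.mp he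
        exact halive _ (hτP k) e hk
      · have h1 := H79.ga_Ut hℓ τ
        have h2 : (r : ℝ) * g ≤ ∑ k, ga ℓ (UU (τ k).1 (τ k).2) := by
          have : ∑ _k : Fin r, g ≤ ∑ k, ga ℓ (UU (τ k).1 (τ k).2) :=
            Finset.sum_le_sum (fun k _ => hg _ (hτP k))
          simpa using this
        have h3 : Real.logb 2 ((m : ℝ) + 1) * H79.Xc H τ ≤
            Real.logb 2 ((m : ℝ) + 1) * (2 * b) := mul_le_mul_of_nonneg_left hτX hlm
        simp only [hH] at h3
        linarith)
  have hlbT : (r : ℝ) * lb Sh.card - 1 ≤ lb T.card := by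
    have h1 : Real.logb 2 ((P.card : ℝ) / 2) ≤ Real.logb 2 (T.card : ℝ) := by
      apply Real.logb_le_logb_of_le (by norm_num)
      · positivity
      · linarith
    rw [Real.logb_div hP0.ne' (by norm_num), hPc] at h1
    push_cast at h1
    rw [Real.logb_pow, Real.logb_self_eq_one (by norm_num)] at h1
    exact h1
  have hr0 : (0 : ℝ) < r := by exact_mod_cast hr1
  have hfin : (r : ℝ) * (lb Sh.card + g) ≤ r * (lb (Fam ℓ V lev x).card + lb (Ych Y y).card +
      2 * Real.logb 2 ((m : ℝ) + 1) * r * p * Q) + (c * s + 1) := by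
    rw [hb] at hbet
    linarith
  have h9 : lb Sh.card + g ≤ ((r * (lb (Fam ℓ V lev x).card + lb (Ych Y y).card +
      2 * Real.logb 2 ((m : ℝ) + 1) * r * p * Q) + (c * s + 1)) / r) := by
    rw [le_div_iff₀ hr0]
    linarith
  rw [add_div, mul_div_cancel_left₀ _ hr0.ne'] at h9
  exact h9

end Pool.Agent.Helper65.CG
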