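import Pool.Agent.Helper61.UB.Base

/-! Module D2 of the upper bound: tuples that share their constant part. -/

set_option autoImplicit false

namespace Pool.Agent.Helper65.CG

open scoped Classical
open Pool.Agent.Helper65.CliqueGame

variable {n q m : ℕ}

namespace H79D

/-- the values of the slots in `F` -/
noncomputable def Xs (A : Finset (Fin q → Fin n)) (F : Finset (Fin q)) : Finset (Fin n) :=
  A.biUnion (fun Z => F.image Z)

/-- the exponent -/
noncomputable def bb (L σ : ℝ) (t : ℕ) : ℝ := max 0 (L - t / σ)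

theorem bb_nonneg (L σ : ℝ) (t : ℕ) : 0 ≤ bb L σ t := le_max_left _ _

theorem bb_ge (L σ : ℝ) (t : ℕ) : L - t / σ ≤ bb L σ t := le_max_right _ _

theorem bb_missing {L σ a d : ℝ} (hL : 0 < L) (hσ : 0 < σ) (ha : 0 ≤ a) (t : ℕ)
    (hd : σ * L + a ≤ d) (htd : (t : ℝ) ≤ d) : (σ + a / L) * bb L σ t ≤ d - t := by
  rw [bb]
  rcases le_total (L - t / σ) 0 with h | h
  · rw [max_eq_left h]
    linarith
  · rw [max_eq_right h]
    have h1 : (σ + a / L) * (L - t / σ) = σ * L - t + a * ((L - t / σ) / L) := by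
      field_simp
    rw [h1]
    have h2 : (L - t / σ) / L ≤ 1 := by
      rw [div_le_one hL]
      have : 0 ≤ (t : ℝ) / σ := by positivity
      linarith
    have h3 : a * ((L - t / σ) / L) ≤ a * 1 := mul_le_mul_of_nonneg_left h2 ha
    linarith

/-- the missing edges between `F` and its complement -/
theorem missing {ℓ : Sym2 (Fin n) → ℕ} {κ : ℕ} {Z : Fin q → Fin n} (hZ : NearT ℓ κ Z)
    {F : Finset (Fin q)} {D : Finset (Fin n)} (hD : (Fᶜ).image Z = D) :
    ∑ i ∈ F, ((D.card : ℝ) - dM ℓ D (Z i)) ≤ κ := by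
  obtain ⟨hinj, hal, hk⟩ := hZ
  have h1 : ∀ i ∈ F, (D.card : ℝ) - dM ℓ D (Z i) =
      (((Fᶜ).filter (fun j => lk ℓ Z i j = 0)).card : ℝ) := by
    intro i _
    have h2 : D.card = (D.filter (fun u => 2 ≤ ℓ s(u, Z i))).card +
        (D.filter (fun u => ¬ 2 ≤ ℓ s(u, Z i))).card :=
      (Finset.card_filter_add_card_filter_not _).symm
    have h3 : (D.filter (fun u => ¬ 2 ≤ ℓ s(u, Z i))) =
        ((Fᶜ).filter (fun j => lk ℓ Z i j = 0)).image Z := by
      ext u
      rw [Finset.mem_filter, Finset.mem_image]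
      constructor
      · rintro ⟨hu, h4⟩
        rw [← hD, Finset.mem_image] at hu
        obtain ⟨j, hj, rfl⟩ := hu
        refine ⟨j, Finset.mem_filter.mpr ⟨hj, ?_⟩, rfl⟩
        have h5 := hal i j
        rw [lk] at h5 ⊢
        rw [Sym2.eq_swap] at h4
        omega
      · rintro ⟨j, hj, rfl⟩
        rw [Finset.mem_filter] at hj
        refine ⟨?_, ?_⟩
        · rw [← hD]
          exact Finset.mem_image_of_mem _ hj.1
        · rw [Sym2.eq_swap]
          have := hj.2
          rw [lk] at this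
          omega
    have h4 : (D.filter (fun u => ¬ 2 ≤ ℓ s(u, Z i))).card =
        ((Fᶜ).filter (fun j => lk ℓ Z i j = 0)).card := by
      rw [h3, Finset.card_image_of_injective _ hinj]
    rw [dM]
    have h5 : (D.card : ℝ) = ((D.filter (fun u => 2 ≤ ℓ s(u, Z i))).card : ℝ) +
        (((Fᶜ).filter (fun j => lk ℓ Z i j = 0)).card : ℝ) := by
      rw [← h4]
      exact_mod_cast h2
    linarith
  rw [Finset.sum_congr rfl h1]
  have h6 : (∑ i ∈ F, ((Fᶜ).filter (fun j => lk ℓ Z i j = 0)).card) ≤ κ := by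
    refine le_trans ?_ hk
    have h7 : (∑ i ∈ F, ((Fᶜ).filter (fun j => lk ℓ Z i j = 0)).card) =
        (F.sigma (fun i => (Fᶜ).filter (fun j => lk ℓ Z i j = 0))).card := by
      rw [Finset.card_sigma]
    rw [h7]
    apply Finset.card_le_card_of_injOn (fun p => (min p.1 p.2, max p.1 p.2))
    · rintro ⟨i, j⟩ hp
      rw [Finset.mem_coe, Finset.mem_sigma, Finset.mem_filter, Finset.mem_compl] at hp
      obtain ⟨hi, hj, h0⟩ := hp
      simp only at hi hj h0
      have hne : i ≠ j := by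
        rintro rfl
        exact hj hi
      rw [Finset.mem_coe, Finset.mem_filter]
      refine ⟨Finset.mem_univ _, ?_, ?_⟩
      · simp only [min_lt_max]
        exact hne
      · simp only
        rcases le_total i j with h | h
        · rw [min_eq_left h, max_eq_right h]
          exact h0
        · rw [min_eq_right h, max_eq_left h]
          rw [lk, Sym2.eq_swap]
          exact h0
    · rintro ⟨i, j⟩ hp ⟨i', j'⟩ hp' h
      rw [Finset.mem_coe, Finset.mem_sigma, Finset.mem_filter, Finset.mem_compl] at hp hp'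
      obtain ⟨hi, hj, h0⟩ := hp
      obtain ⟨hi', hj', h0'⟩ := hp'
      simp only at hi hj h0 hi' hj' h0'
      simp only [Prod.mk.injEq] at h
      obtain ⟨h1, h2⟩ := h
      have h3 : i = i' ∧ j = j' := by
        rcases le_total i j with a | a <;> rcases le_total i' j' with b | b
        · rw [min_eq_left a, min_eq_left b] at h1
          rw [max_eq_right a, max_eq_right b] at h2
          exact ⟨h1, h2⟩
        · rw [min_eq_left a, min_eq_right b] at h1
          rw [h1] at hi
          exact absurd hi hj'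
        · rw [min_eq_right a, min_eq_left b] at h1
          rw [h1] at hj
          exact absurd hi' hj
        · rw [min_eq_right a, min_eq_right b] at h1
          rw [max_eq_left a, max_eq_left b] at h2
          exact ⟨h2, h1⟩
      obtain ⟨rfl, rfl⟩ := h3
      rfl
  calc ∑ i ∈ F, (((Fᶜ).filter (fun j => lk ℓ Z i j = 0)).card : ℝ)
      = ((∑ i ∈ F, ((Fᶜ).filter (fun j => lk ℓ Z i j = 0)).card : ℕ) : ℝ) := by
        push_cast
        rfl
    _ ≤ κ := by exact_mod_cast h6

/-- the general estimate, given the bound for the sets of vertices of one degree -/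
theorem weight {A : Finset (Fin q → Fin n)} (F : Finset (Fin q))
    (D : Finset (Fin n)) (hD : ∀ Z ∈ A, (Fᶜ).image Z = D) (f : Fin n → ℕ)
    (hf : ∀ v, f v ≤ D.card) (b : ℕ → ℝ) {W : ℝ} (hW : 1 ≤ W)
    (hX : ∀ t, (((Xs A F).filter (fun v => f v = t)).card : ℝ) ≤ W * (2 : ℝ) ^ (b t)) :
    ∑ Z ∈ A, (2 : ℝ) ^ (-(∑ i ∈ F, b (f (Z i)))) ≤ (((q : ℝ) + 1) * W) ^ q := by
  rcases A.eq_empty_or_nonempty with rfl | hA
  · simp
    positivity
  obtain ⟨Z₀, hZ₀⟩ := hA
  have hDq : D.card ≤ q := by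
    rw [← hD Z₀ hZ₀]
    calc ((Fᶜ).image Z₀).card ≤ (Fᶜ).card := Finset.card_image_le
      _ ≤ Fintype.card (Fin q) := Finset.card_le_univ _
      _ = q := Fintype.card_fin q
  set S : Fin q → Finset (Fin n) := fun i => if i ∈ F then Xs A F else D with hS
  set w : Fin q → Fin n → ℝ := fun i v => if i ∈ F then (2 : ℝ) ^ (-(b (f v))) else 1 with hw
  have hw0 : ∀ i v, 0 ≤ w i v := by
    intro i v
    simp only [hw]
    split_ifs
    · positivity
    · norm_num
  have hsub : A ⊆ Fintype.piFinset S := by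
    intro Z hZ
    rw [Fintype.mem_piFinset]
    intro i
    simp only [hS]
    split_ifs with hi
    · rw [Xs, Finset.mem_biUnion]
      exact ⟨Z, hZ, Finset.mem_image_of_mem _ hi⟩
    · rw [← hD Z hZ]
      exact Finset.mem_image_of_mem _ (Finset.mem_compl.mpr hi)
  have h1 : ∀ Z ∈ A, (2 : ℝ) ^ (-(∑ i ∈ F, b (f (Z i)))) = ∏ i, w i (Z i) := by
    intro Z _
    rw [← Finset.sum_neg_distrib, Real.rpow_sum_of_pos (by norm_num)]
    simp only [hw]
    rw [Finset.prod_ite_mem, Finset.univ_inter]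
  rw [Finset.sum_congr rfl h1]
  calc ∑ Z ∈ A, ∏ i, w i (Z i) ≤ ∑ Z ∈ Fintype.piFinset S, ∏ i, w i (Z i) := by
        apply Finset.sum_le_sum_of_subset_of_nonneg hsub
        intro Z _ _
        exact Finset.prod_nonneg (fun i _ => hw0 _ _)
    _ = ∏ i, ∑ v ∈ S i, w i v := by
        rw [Finset.prod_univ_sum]
    _ ≤ ∏ _i : Fin q, (((q : ℝ) + 1) * W) := by
        apply Finset.prod_le_prod
        · intro i _
          exact Finset.sum_nonneg (fun v _ => hw0 _ _)
        · intro i _
          by_cases hi : i ∈ F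
          · simp only [hS, hw, if_pos hi]
            have hmaps : ∀ v ∈ Xs A F, f v ∈ Finset.range (q + 1) := by
              intro v _
              rw [Finset.mem_range]
              have := hf v
              omega
            rw [← Finset.sum_fiberwise_of_maps_to hmaps]
            calc ∑ t ∈ Finset.range (q + 1), ∑ v ∈ (Xs A F).filter (fun v => f v = t),
                    (2 : ℝ) ^ (-(b (f v)))
                ≤ ∑ _t ∈ Finset.range (q + 1), W := by
                  apply Finset.sum_le_sum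
                  intro t _
                  have h2 : ∑ v ∈ (Xs A F).filter (fun v => f v = t), (2 : ℝ) ^ (-(b (f v))) =
                      (((Xs A F).filter (fun v => f v = t)).card : ℝ) * (2 : ℝ) ^ (-(b t)) := by
                    rw [← nsmul_eq_mul, ← Finset.sum_const]
                    apply Finset.sum_congr rfl
                    intro v hv
                    rw [(Finset.mem_filter.mp hv).2]
                  rw [h2]
                  calc (((Xs A F).filter (fun v => f v = t)).card : ℝ) * (2 : ℝ) ^ (-(b t))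
                      ≤ (W * (2 : ℝ) ^ (b t)) * (2 : ℝ) ^ (-(b t)) :=
                        mul_le_mul_of_nonneg_right (hX t) (by positivity)
                    _ = W := by
                        rw [mul_assoc, ← Real.rpow_add (by norm_num)]
                        simp
              _ = ((q : ℝ) + 1) * W := by
                  rw [Finset.sum_const, Finset.card_range, nsmul_eq_mul]
                  push_cast
                  ring
          · simp only [hS, hw, if_neg hi]
            rw [Finset.sum_const, nsmul_eq_mul, mul_one]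
            have h3 : (D.card : ℝ) ≤ q := by exact_mod_cast hDq
            have h4 : (0 : ℝ) ≤ q := Nat.cast_nonneg q
            nlinarith
    _ = (((q : ℝ) + 1) * W) ^ q := by
        rw [Finset.prod_const, Finset.card_univ, Fintype.card_fin]

theorem exists_big {A : Finset (Fin q → Fin n)} (hA : A.Nonempty) (F : Finset (Fin q))
    (D : Finset (Fin n)) (hD : ∀ Z ∈ A, (Fᶜ).image Z = D) (f : Fin n → ℕ)
    (hf : ∀ v, f v ≤ D.card) (b : ℕ → ℝ) {W : ℝ} (hW : 1 ≤ W)
    (hX : ∀ t, (((Xs A F).filter (fun v => f v = t)).card : ℝ) ≤ W * (2 : ℝ) ^ (b t)) :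
    ∃ Z ∈ A, lb A.card - q * (Real.logb 2 ((q : ℝ) + 1) + Real.logb 2 W) ≤
      ∑ i ∈ F, b (f (Z i)) := by
  obtain ⟨Z, hZ, hmax⟩ := Finset.exists_max_image A (fun Z => ∑ i ∈ F, b (f (Z i))) hA
  refine ⟨Z, hZ, ?_⟩
  have h1 := weight F D hD f hf b hW hX
  have h2 : (A.card : ℝ) * (2 : ℝ) ^ (-(∑ i ∈ F, b (f (Z i)))) ≤
      ∑ Z ∈ A, (2 : ℝ) ^ (-(∑ i ∈ F, b (f (Z i)))) := by
    rw [← nsmul_eq_mul, ← Finset.sum_const]
    apply Finset.sum_le_sum
    intro Z' hZ'
    apply Real.rpow_le_rpow_of_exponent_le (by norm_num)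
    have := hmax Z' hZ'
    linarith
  have hA0 : (0 : ℝ) < A.card := by exact_mod_cast hA.card_pos
  have hq0 : (0 : ℝ) < (q : ℝ) + 1 := by positivity
  have hW0 : 0 < W := by linarith
  have h3 := h2.trans h1
  have h4 : (A.card : ℝ) ≤ (((q : ℝ) + 1) * W) ^ q * (2 : ℝ) ^ (∑ i ∈ F, b (f (Z i))) := by
    have h5 := mul_le_mul_of_nonneg_right h3
      (by positivity : (0 : ℝ) ≤ (2 : ℝ) ^ (∑ i ∈ F, b (f (Z i))))
    rw [mul_assoc, ← Real.rpow_add (by norm_num)] at h5
    simpa using h5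
  have h6 := Real.logb_le_logb_of_le (by norm_num : (1 : ℝ) < 2) hA0 h4
  rw [Real.logb_mul (by positivity) (by positivity), Real.logb_pow,
    Real.logb_mul (by positivity) (by positivity), Real.logb_rpow (by norm_num) (by norm_num)] at h6
  rw [lb]
  linarith

end H79D

theorem Dbound_of_base (hm : 1 ≤ m) (hn : 2 ≤ n) {ℓ : Sym2 (Fin n) → ℕ} {c : ℝ}
    (hc : 0 ≤ c)
    (base : ∀ (D X : Finset (Fin n)) (_ : X.Nonempty) (_ : Disjoint D X)
      (_ : Alive ℓ (join D X)) {t : ℝ} (_ : ∀ v ∈ X, t ≤ dM ℓ D v),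
      (X.card : ℝ) ≤ D.card * Lg n + c ∨
        lb X.card ≤ Lg n - t / (m / Real.logb 2 ((m : ℝ) + 1)) + 3)
    {κ : ℕ} (A : Finset (Fin q → Fin n)) (hA : A.Nonempty)
    (hnear : ∀ Z ∈ A, NearT ℓ κ Z) (F : Finset (Fin q)) (D : Finset (Fin n))
    (hD : ∀ Z ∈ A, (Fᶜ).image Z = D) {a : ℝ} (ha : 0 ≤ a)
    (haD : m / Real.logb 2 ((m : ℝ) + 1) * Lg n + a ≤ D.card) :
    (m / Real.logb 2 ((m : ℝ) + 1) + a / Lg n) *
      (lb A.card - q * (Real.logb 2 ((q : ℝ) + 1) +
        Real.logb 2 (D.card * Lg n + c + 8))) ≤ κ := by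
  have hm0 : (0 : ℝ) < m := by exact_mod_cast hm
  have hlog : 0 < Real.logb 2 ((m : ℝ) + 1) := by
    apply Real.logb_pos (by norm_num)
    linarith
  set σ : ℝ := m / Real.logb 2 ((m : ℝ) + 1) with hσ
  have hσ0 : 0 < σ := by positivity
  have hL : 0 < Lg n := by
    rw [Lg]
    apply Real.logb_pos (by norm_num)
    have : (2 : ℝ) ≤ n := by exact_mod_cast hn
    linarith
  set W : ℝ := D.card * Lg n + c + 8 with hW
  have hDL : 0 ≤ (D.card : ℝ) * Lg n := by positivity
  have hW8 : 8 ≤ W := by rw [hW]; linarith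
  have hf : ∀ v, dM ℓ D v ≤ D.card := fun v => Finset.card_filter_le _ _
  have hX : ∀ t : ℕ, (((H79D.Xs A F).filter (fun v => dM ℓ D v = t)).card : ℝ) ≤
      W * (2 : ℝ) ^ (H79D.bb (Lg n) σ t) := by
    intro t
    set X := (H79D.Xs A F).filter (fun v => dM ℓ D v = t) with hXdef
    have h1 : (1 : ℝ) ≤ (2 : ℝ) ^ (H79D.bb (Lg n) σ t) :=
      Real.one_le_rpow (by norm_num) (H79D.bb_nonneg _ _ _)
    rcases X.eq_empty_or_nonempty with h | h
    · rw [h]
      simp only [Finset.card_empty, Nat.cast_zero]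
      positivity
    have hXmem : ∀ v ∈ X, ∃ Z ∈ A, ∃ i ∈ F, Z i = v := by
      intro v hv
      rw [hXdef, Finset.mem_filter, H79D.Xs, Finset.mem_biUnion] at hv
      obtain ⟨⟨Z, hZ, hv⟩, _⟩ := hv
      rw [Finset.mem_image] at hv
      obtain ⟨i, hi, rfl⟩ := hv
      exact ⟨Z, hZ, i, hi, rfl⟩
    have hdis : Disjoint D X := by
      rw [Finset.disjoint_left]
      intro u hu hv
      obtain ⟨Z, hZ, i, hi, rfl⟩ := hXmem u hv
      rw [← hD Z hZ, Finset.mem_image] at hu
      obtain ⟨j, hj, hji⟩ := hu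
      have := (hnear Z hZ).1 hji
      rw [this] at hj
      exact Finset.mem_compl.mp hj hi
    have hal : Alive ℓ (join D X) := by
      intro e he
      rw [join, Finset.mem_image] at he
      obtain ⟨⟨u, v⟩, huv, rfl⟩ := he
      rw [Finset.mem_product] at huv
      obtain ⟨Z, hZ, i, hi, hiv⟩ := hXmem v huv.2
      have hu := huv.1
      rw [← hD Z hZ, Finset.mem_image] at hu
      obtain ⟨j, _, hju⟩ := hu
      have h2 := (hnear Z hZ).2.1 j i
      rw [lk, hju, hiv] at h2
      exact h2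
    have hdeg : ∀ v ∈ X, (t : ℝ) ≤ dM ℓ D v := by
      intro v hv
      rw [hXdef, Finset.mem_filter] at hv
      rw [hv.2]
    have hXc : (0 : ℝ) < X.card := by exact_mod_cast h.card_pos
    rcases base D X h hdis hal hdeg with h2 | h2
    · calc (X.card : ℝ) ≤ W := by rw [hW]; linarith
        _ = W * 1 := (mul_one W).symm
        _ ≤ W * (2 : ℝ) ^ (H79D.bb (Lg n) σ t) :=
          mul_le_mul_of_nonneg_left h1 (by linarith)
    · have h3 : lb X.card ≤ H79D.bb (Lg n) σ t + 3 := by
        have := H79D.bb_ge (Lg n) σ t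
        linarith
      have h4 : (X.card : ℝ) = (2 : ℝ) ^ (lb X.card) := by
        rw [lb, Real.rpow_logb (by norm_num) (by norm_num) hXc]
      calc (X.card : ℝ) = (2 : ℝ) ^ (lb X.card) := h4
        _ ≤ (2 : ℝ) ^ (H79D.bb (Lg n) σ t + 3) :=
          Real.rpow_le_rpow_of_exponent_le (by norm_num) h3
        _ = 8 * (2 : ℝ) ^ (H79D.bb (Lg n) σ t) := by
          rw [Real.rpow_add (by norm_num)]
          norm_num
          ring
        _ ≤ W * (2 : ℝ) ^ (H79D.bb (Lg n) σ t) :=
          mul_le_mul_of_nonneg_right hW8 (by positivity)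
  obtain ⟨Z, hZ, hbig⟩ := H79D.exists_big hA F D hD (dM ℓ D) hf (H79D.bb (Lg n) σ)
    (by linarith : (1 : ℝ) ≤ W) hX
  have hmiss := H79D.missing (hnear Z hZ) (hD Z hZ)
  have hsum : (σ + a / Lg n) * ∑ i ∈ F, H79D.bb (Lg n) σ (dM ℓ D (Z i)) ≤
      ∑ i ∈ F, ((D.card : ℝ) - dM ℓ D (Z i)) := by
    rw [Finset.mul_sum]
    apply Finset.sum_le_sum
    intro i _
    apply H79D.bb_missing hL hσ0 ha _ haD
    exact_mod_cast hf (Z i)
  have hpos : 0 ≤ σ + a / Lg n := by positivity
  exact (mul_le_mul_of_nonneg_left hbig hpos).trans (hsum.trans hmiss)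

theorem Dbound (hm : 1 ≤ m) (hn : 2 ≤ n) {ℓ : Sym2 (Fin n) → ℕ} (hℓ : Lab m ℓ) {c : ℝ}
    (hc : 0 ≤ c) (hB : Bet1 ℓ c) {κ : ℕ} (A : Finset (Fin q → Fin n)) (hA : A.Nonempty)
    (hnear : ∀ Z ∈ A, NearT ℓ κ Z) (F : Finset (Fin q)) (D : Finset (Fin n))
    (hD : ∀ Z ∈ A, (Fᶜ).image Z = D) {a : ℝ} (ha : 0 ≤ a)
    (haD : m / Real.logb 2 ((m : ℝ) + 1) * Lg n + a ≤ D.card) :
    (m / Real.logb 2 ((m : ℝ) + 1) + a / Lg n) *
      (lb A.card - q * (Real.logb 2 ((q : ℝ) + 1) +
        Real.logb 2 (D.card * Lg n + c + 8))) ≤ κ :=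
  Dbound_of_base hm hn hc
    (fun D X hX hDX hal _ ht => base hm hℓ hc hB D X hX hDX hal ht) A hA hnear F D hD ha haD

end Pool.Agent.Helper65.CG
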